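import Mathlib

/-!
# Simultaneous minimal Sylow intersections: groups with two prime divisors, and their products

Let `H` be a subgroup of the finite group `G` and `H ^ x = x⁻¹ H x`. We say that `x` is good for `H`
(`IsMin H x`) if `H ∩ H ^ x` is inclusion-minimal among the subgroups `H ∩ H ^ y`, `y ∈ G`. The question
is if for every choice of Sylow subgroups, one for each prime, there is one `x` which is good for
all of them (`Simultaneous G`).

1. Let `G` be of order `p ^ a q ^ b`, and let `P` and `Q` be any Sylow subgroups for `p` and `q`. Then the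
two conditions on `x` are independent: for a random element `x` of `G`, the probability that `x` is
good for `P` and for `Q` is the product of the two probabilities.

2. The answer is yes for all groups in the following class (`Class`), the smallest class of finite
groups which contains
* the groups of order `p ^ a q ^ b`, of any derived length, for all primes `p` and `q`; more generally all
  groups such that for two primes `p` and `q` one has `G = N(P) N(Q)` for all Sylow `p`-subgroups `P` and
  Sylow `q`-subgroups `Q`, and such that for all other primes the Sylow subgroups are normal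
  (`Base`; for example all groups with at most one prime for which the Sylow subgroups are not
  normal);
* all finite direct products of groups in the class; the primes `p`, `q` may be different for
  different factors, so there are groups of any number of prime divisors in the class;
* all finite central extensions of groups in the class.

Proof. Let `G = N(P) N(Q)`. If `x = n m` with `n` in `N(P)` and `m` in `N(Q)`, then `P ∩ P ^ x = P ∩ P ^ m`, and
`Q ∩ Q ^ x = (Q ∩ Q ^ n) ^ m`, so whether `x` is good for `P` depends on `m` only and whether it is good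
for `Q` depends on `n` only. If `G` has order `p ^ a q ^ b` then `G = P Q` with unique factorization. The
Sylow subgroups of a direct product are products of Sylow subgroups. If `Z` is a central subgroup of
`G` and `H` a Sylow subgroup, then `(H ∩ H ^ x) Z / Z` is the intersection `HZ/Z ∩ (HZ/Z) ^ x`, since `H`
contains the elements of `Z` whose order is a power of `p`.
-/

set_option autoImplicit false

namespace Pool.Agent.Results.MP_e5a1a5_al.TwoPrimeProducts

/-- The subgroup `H ∩ H ^ x`, where `H ^ x = x⁻¹ H x`. -/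
def inter {G : Type} [Group G] (H : Subgroup G) (x : G) : Subgroup G where
  carrier := {g | g ∈ H ∧ x * g * x⁻¹ ∈ H}
  mul_mem' := by
    rintro a b ⟨ha, ha'⟩ ⟨hb, hb'⟩
    refine ⟨H.mul_mem ha hb, ?_⟩
    have h : x * (a * b) * x⁻¹ = (x * a * x⁻¹) * (x * b * x⁻¹) := by group
    rw [h]
    exact H.mul_mem ha' hb'
  one_mem' := ⟨H.one_mem, by simp [H.one_mem]⟩
  inv_mem' := by
    rintro a ⟨ha, ha'⟩
    refine ⟨H.inv_mem ha, ?_⟩
    have h : x * a⁻¹ * x⁻¹ = (x * a * x⁻¹)⁻¹ := by group
    rw [h]
    exact H.inv_mem ha'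

/-- `H ∩ H ^ x` is inclusion-minimal among the subgroups `H ∩ H ^ y`, `y ∈ G`. -/
def IsMin {G : Type} [Group G] (H : Subgroup G) (x : G) : Prop :=
  ∀ y : G, inter H y ≤ inter H x → inter H y = inter H x

/-- Q1 for `G`: for every choice of Sylow subgroups, one for each prime, there is one element `x`
such that all the intersections `H ∩ H ^ x` are inclusion-minimal. -/
def Simultaneous (G : Type) [Group G] : Prop :=
  ∀ H : ∀ p : Nat.Primes, Sylow p G, ∃ x : G, ∀ p, IsMin (H p : Subgroup G) x

section single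

variable {G : Type} [Group G]

theorem mem_inter {H : Subgroup G} {x g : G} : g ∈ inter H x ↔ g ∈ H ∧ x * g * x⁻¹ ∈ H :=
  Iff.rfl

/-- `n` belongs to the normaliser of `H` -/
def Norm (H : Subgroup G) (n : G) : Prop := n ∈ Subgroup.normalizer (H : Set G)

/-- There are primes `p` and `q` such that `G = N(P) N(Q)` for all Sylow `p`-subgroups `P` and all
Sylow `q`-subgroups `Q`, where `N` is the normaliser, and such that for all other primes the Sylow
subgroups are normal. -/
def Base (G : Type) [Group G] : Prop :=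
  ∃ p q : Nat.Primes, (∀ r : Nat.Primes, r ≠ p → r ≠ q → ∀ R : Sylow r G,
    (R : Subgroup G).Normal) ∧
    ∀ (P : Sylow p G) (Q : Sylow q G) (g : G), ∃ n m : G,
      Norm (P : Subgroup G) n ∧ Norm (Q : Subgroup G) m ∧ g = n * m

theorem Norm.of_mem {H : Subgroup G} {n : G} (hn : n ∈ H) : Norm H n :=
  Subgroup.le_normalizer hn

theorem Norm.inv {H : Subgroup G} {n : G} (hn : Norm H n) : Norm H n⁻¹ :=
  (Subgroup.normalizer (H : Set G)).inv_mem hn

theorem conj_mem {H : Subgroup G} {n : G} (hn : Norm H n) (g : G) : n * g * n⁻¹ ∈ H ↔ g ∈ H :=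
  (Subgroup.mem_normalizer_iff.1 hn g).symm

theorem inter_mul_left {H : Subgroup G} {n : G} (hn : Norm H n) (x : G) :
    inter H (n * x) = inter H x := by
  ext g
  rw [mem_inter, mem_inter]
  have h : n * x * g * (n * x)⁻¹ = n * (x * g * x⁻¹) * n⁻¹ := by group
  rw [h, conj_mem hn]

theorem mem_inter_mul_right {H : Subgroup G} {n : G} (hn : Norm H n) (x g : G) :
    g ∈ inter H (x * n) ↔ n * g * n⁻¹ ∈ inter H x := by
  rw [mem_inter, mem_inter, conj_mem hn]
  have h : x * n * g * (x * n)⁻¹ = x * (n * g * n⁻¹) * x⁻¹ := by group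
  rw [h]

theorem isMin_mul_left {H : Subgroup G} {n : G} (hn : Norm H n) (x : G) :
    IsMin H (n * x) ↔ IsMin H x := by
  rw [IsMin, IsMin, inter_mul_left hn]

theorem isMin_mul_right_aux {H : Subgroup G} {n : G} (hn : Norm H n) {x : G}
    (h : IsMin H x) : IsMin H (x * n) := by
  intro y hy
  have hn' := hn.inv
  have h1 : inter H (y * n⁻¹) ≤ inter H x := by
    intro g hg
    rw [mem_inter_mul_right hn'] at hg
    have h2 := hy hg
    rw [mem_inter_mul_right hn] at h2
    have h3 : n * (n⁻¹ * g * n⁻¹⁻¹) * n⁻¹ = g := by group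
    rwa [h3] at h2
  have h4 := h _ h1
  ext g
  have h5 : g ∈ inter H y ↔ n * g * n⁻¹ ∈ inter H (y * n⁻¹) := by
    rw [mem_inter_mul_right hn']
    have h3 : n⁻¹ * (n * g * n⁻¹) * n⁻¹⁻¹ = g := by group
    rw [h3]
  rw [h5, h4, mem_inter_mul_right hn]

theorem isMin_mul_right {H : Subgroup G} {n : G} (hn : Norm H n) (x : G) :
    IsMin H (x * n) ↔ IsMin H x := by
  refine ⟨fun h => ?_, isMin_mul_right_aux hn⟩
  have h1 := isMin_mul_right_aux hn.inv h
  rwa [mul_inv_cancel_right] at h1

theorem exists_isMin [Finite G] (H : Subgroup G) : ∃ x, IsMin H x := by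
  obtain ⟨K, hK⟩ := (Set.toFinite (Set.range (inter H))).exists_minimal (Set.range_nonempty _)
  obtain ⟨⟨x, rfl⟩, hmin⟩ := hK
  exact ⟨x, fun y hy => le_antisymm hy (hmin ⟨y, rfl⟩ hy)⟩

theorem isMin_bot (x : G) : IsMin (⊥ : Subgroup G) x := by
  intro y _
  ext g
  rw [mem_inter, mem_inter, Subgroup.mem_bot]
  constructor
  · rintro ⟨rfl, -⟩
    simp
  · rintro ⟨rfl, -⟩
    simp

/-- independence of the two conditions -/
theorem indep {A B : Subgroup G} (h : A.IsComplement' B) :
    {x | IsMin A x ∧ IsMin B x}.ncard * Nat.card G =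
      {x | IsMin A x}.ncard * {x | IsMin B x}.ncard := by
  have hb : Function.Bijective fun x : A × B => (x.1 * x.2 : G) := h
  set f := fun x : A × B => (x.1 * x.2 : G) with hf
  set S : Set B := {b | IsMin A (b : G)} with hS
  set T : Set A := {a | IsMin B (a : G)} with hT
  have hA : ∀ x : A × B, IsMin A (f x) ↔ x.2 ∈ S := fun x => isMin_mul_left (Norm.of_mem x.1.2) _
  have hB : ∀ x : A × B, IsMin B (f x) ↔ x.1 ∈ T := fun x => isMin_mul_right (Norm.of_mem x.2.2) _
  have h1 : {x | IsMin A x} = f '' (Set.univ ×ˢ S) := by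
    ext x
    obtain ⟨y, rfl⟩ := hb.2 x
    rw [hb.1.mem_set_image]
    simp [hA]
  have h2 : {x | IsMin B x} = f '' (T ×ˢ Set.univ) := by
    ext x
    obtain ⟨y, rfl⟩ := hb.2 x
    rw [hb.1.mem_set_image]
    simp [hB]
  have h3 : {x | IsMin A x ∧ IsMin B x} = f '' (T ×ˢ S) := by
    ext x
    obtain ⟨y, rfl⟩ := hb.2 x
    rw [hb.1.mem_set_image]
    simp [hA, hB, and_comm]
  have h4 : Nat.card G = Nat.card A * Nat.card B := by
    rw [← Nat.card_prod]
    exact (Nat.card_congr (Equiv.ofBijective f hb)).symm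
  rw [h1, h2, h3, Set.ncard_image_of_injective _ hb.1, Set.ncard_image_of_injective _ hb.1,
    Set.ncard_image_of_injective _ hb.1, Set.ncard_prod, Set.ncard_prod, Set.ncard_prod,
    Set.ncard_univ, Set.ncard_univ, h4]
  ring

theorem exists_both [Finite G] {A B : Subgroup G}
    (h : ∀ g : G, ∃ n m, Norm A n ∧ Norm B m ∧ g = n * m) : ∃ x, IsMin A x ∧ IsMin B x := by
  obtain ⟨g, hg⟩ := exists_isMin B
  obtain ⟨n, m, hn, hm, rfl⟩ := h g
  rw [isMin_mul_right hm] at hg
  obtain ⟨g', hg'⟩ := exists_isMin A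
  obtain ⟨n', m', hn', hm', rfl⟩ := h g'
  rw [isMin_mul_left hn'] at hg'
  exact ⟨n * m', (isMin_mul_left hn _).2 hg', (isMin_mul_right hm' _).2 hg⟩

theorem isMin_normal {H : Subgroup G} (hH : H.Normal) (x : G) : IsMin H x := by
  intro y _
  have h : ∀ z : G, inter H z = H := by
    intro z
    ext g
    rw [mem_inter]
    exact ⟨fun h => h.1, fun h => ⟨h, hH.conj_mem g h z⟩⟩
  rw [h, h]

theorem complement [Finite G] {p q a b : ℕ} (hp : p.Prime) (hq : q.Prime) (hpq : p ≠ q)
    (hG : Nat.card G = p ^ a * q ^ b) (P : Sylow p G) (Q : Sylow q G) :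
    (P : Subgroup G).IsComplement' (Q : Subgroup G) := by
  have := Fact.mk hp
  have := Fact.mk hq
  have h1 : Nat.card P = p ^ a := by
    rw [P.card_eq_multiplicity, hG, Nat.factorization_mul (pow_ne_zero _ hp.ne_zero)
      (pow_ne_zero _ hq.ne_zero), hp.factorization_pow, hq.factorization_pow]
    simp [hpq.symm]
  have h2 : Nat.card Q = q ^ b := by
    rw [Q.card_eq_multiplicity, hG, Nat.factorization_mul (pow_ne_zero _ hp.ne_zero)
      (pow_ne_zero _ hq.ne_zero), hp.factorization_pow, hq.factorization_pow]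
    simp [hpq]
  refine Subgroup.isComplement'_of_coprime ?_ ?_
  · rw [h1, h2, hG]
  · rw [h1, h2]
    exact Nat.Coprime.pow _ _ ((Nat.coprime_primes hp hq).2 hpq)

theorem base_of_two [Finite G] {p q a b : ℕ} (hp : p.Prime) (hq : q.Prime) (hpq : p ≠ q)
    (hG : Nat.card G = p ^ a * q ^ b) : Base G := by
  refine ⟨⟨p, hp⟩, ⟨q, hq⟩, fun r h1 h2 R => ?_, fun P Q g => ?_⟩
  · have := Fact.mk r.2
    have h3 : Nat.card R = 1 := by
      have hrp : (r : ℕ) ≠ p := fun h => h1 (Subtype.ext h)
      have hrq : (r : ℕ) ≠ q := fun h => h2 (Subtype.ext h)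
      rw [R.card_eq_multiplicity, hG, Nat.factorization_mul (pow_ne_zero _ hp.ne_zero)
        (pow_ne_zero _ hq.ne_zero), hp.factorization_pow, hq.factorization_pow]
      simp [hrp, hrq]
    have h4 : (R : Subgroup G) = ⊥ := Subgroup.card_eq_one.1 h3
    rw [h4]
    infer_instance
  · obtain ⟨x, hx⟩ := (complement hp hq hpq hG P Q).2 g
    exact ⟨x.1, x.2, Norm.of_mem x.1.2, Norm.of_mem x.2.2, hx.symm⟩

theorem simultaneous_of_base [Finite G] (h : Base G) : Simultaneous G := by
  obtain ⟨p, q, hr, h⟩ := h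
  intro H
  obtain ⟨x, hx, hx'⟩ := exists_both (h (H p) (H q))
  refine ⟨x, fun r => ?_⟩
  by_cases h1 : r = p
  · rw [h1]
    exact hx
  by_cases h2 : r = q
  · rw [h2]
    exact hx'
  exact isMin_normal (hr r h1 h2 (H r)) x

end single

section product

variable {ι : Type} {G : ι → Type} [∀ i, Group (G i)]

theorem isPGroup_pi [Finite ι] {p : ℕ} {K : ∀ i, Subgroup (G i)} (hK : ∀ i, IsPGroup p (K i)) :
    IsPGroup p (Subgroup.pi Set.univ K) := by
  have := Fintype.ofFinite ι
  rintro ⟨f, hf⟩
  have h1 : ∀ i, ∃ k : ℕ, f i ^ p ^ k = 1 := by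
    intro i
    obtain ⟨k, hk⟩ := hK i ⟨f i, hf i (Set.mem_univ i)⟩
    exact ⟨k, by simpa [Subtype.ext_iff] using hk⟩
  choose k hk using h1
  refine ⟨∑ i, k i, ?_⟩
  apply Subtype.ext
  funext i
  have h2 : k i ≤ ∑ j, k j := Finset.single_le_sum (fun _ _ => Nat.zero_le _) (Finset.mem_univ i)
  obtain ⟨m, hm⟩ := Nat.exists_eq_add_of_le h2
  show f i ^ p ^ (∑ j, k j) = 1
  rw [hm, pow_add, pow_mul, hk, one_pow]

theorem mem_inter_pi {K : ∀ i, Subgroup (G i)} {x g : ∀ i, G i} :
    g ∈ inter (Subgroup.pi Set.univ K) x ↔ ∀ i, g i ∈ inter (K i) (x i) := by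
  simp only [mem_inter, Subgroup.mem_pi, Set.mem_univ, true_implies, Pi.mul_apply, Pi.inv_apply]
  exact forall_and.symm

theorem isMin_pi {K : ∀ i, Subgroup (G i)} {x : ∀ i, G i} (h : ∀ i, IsMin (K i) (x i)) :
    IsMin (Subgroup.pi Set.univ K) x := by
  classical
  intro y hy
  have h1 : ∀ i, inter (K i) (y i) = inter (K i) (x i) := by
    intro i
    refine h i _ fun g hg => ?_
    have h2 : Pi.mulSingle i g ∈ inter (Subgroup.pi Set.univ K) y := by
      rw [mem_inter_pi]
      intro j
      by_cases hj : j = i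
      · subst hj
        rwa [Pi.mulSingle_eq_same]
      · rw [Pi.mulSingle_eq_of_ne hj]
        exact Subgroup.one_mem _
    have h3 := mem_inter_pi.1 (hy h2) i
    rwa [Pi.mulSingle_eq_same] at h3
  ext g
  rw [mem_inter_pi, mem_inter_pi]
  exact forall_congr' fun i => by rw [h1 i]

/-- the projection of a Sylow subgroup of a product -/
theorem exists_sylow [Finite ι] {p : ℕ} (H : Sylow p (∀ i, G i)) :
    ∃ K : ∀ i, Sylow p (G i), (H : Subgroup (∀ i, G i)) =
      Subgroup.pi Set.univ fun i => (K i : Subgroup (G i)) := by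
  classical
  let M : ∀ i, Subgroup (G i) := fun i => (H : Subgroup (∀ i, G i)).map (Pi.evalMonoidHom G i)
  have hM : ∀ i, IsPGroup p (M i) := fun i => H.isPGroup'.map _
  have hle : (H : Subgroup (∀ i, G i)) ≤ Subgroup.pi Set.univ M := by
    intro g hg i _
    exact ⟨g, hg, rfl⟩
  have heq : Subgroup.pi Set.univ M = H := H.is_maximal' (isPGroup_pi hM) hle
  refine ⟨fun i => ⟨M i, hM i, ?_⟩, heq.symm⟩
  intro Q hQ hMQ
  refine le_antisymm (fun g hg => ?_) hMQ
  let L : ∀ j, Subgroup (G j) := Function.update M i Q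
  have hL : ∀ j, IsPGroup p (L j) := by
    intro j
    by_cases hj : j = i
    · subst hj
      have h : L j = Q := Function.update_self _ _ _
      rw [h]
      exact hQ
    · have h : L j = M j := Function.update_of_ne hj _ _
      rw [h]
      exact hM j
  have hHL : (H : Subgroup (∀ i, G i)) ≤ Subgroup.pi Set.univ L := by
    intro f hf j _
    by_cases hj : j = i
    · subst hj
      have : f j ∈ M j := ⟨f, hf, rfl⟩
      simpa [L] using hMQ this
    · have : f j ∈ M j := ⟨f, hf, rfl⟩
      simpa [L, hj] using this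
  have h1 := H.is_maximal' (isPGroup_pi hL) hHL
  have h2 : Pi.mulSingle i g ∈ Subgroup.pi Set.univ L := by
    intro j _
    by_cases hj : j = i
    · subst hj
      simpa [L] using hg
    · rw [Pi.mulSingle_eq_of_ne hj]
      exact Subgroup.one_mem _
  rw [h1] at h2
  exact ⟨Pi.mulSingle i g, h2, Pi.mulSingle_eq_same i g⟩

theorem simultaneous_pi [Finite ι] (h : ∀ i, Simultaneous (G i)) : Simultaneous (∀ i, G i) := by
  intro H
  choose K hK using fun p => exists_sylow (H p)
  choose x hx using fun i => h i fun p => K p i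
  refine ⟨x, fun p => ?_⟩
  rw [hK p]
  exact isMin_pi fun i => hx i p

end product

section central

variable {G Q : Type} [Group G] [Group Q]

/-- a central `p`-element belongs to every Sylow `p`-subgroup -/
theorem central_mem {p : ℕ} (H : Sylow p G) {z : G} (hz : z ∈ Subgroup.center G) {k : ℕ}
    (hk : z ^ p ^ k = 1) : z ∈ (H : Subgroup G) := by
  have h1 : IsPGroup p (Subgroup.zpowers z) := by
    rintro ⟨g, hg⟩
    obtain ⟨n, rfl⟩ := hg
    refine ⟨k, Subtype.ext ?_⟩
    show (z ^ n) ^ p ^ k = 1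
    rw [← zpow_natCast, ← zpow_mul, mul_comm, zpow_mul, zpow_natCast, hk, one_zpow]
  have h2 := h1.inf_normalizer_sylow H
  have h3 : z ∈ Subgroup.zpowers z ⊓ Subgroup.normalizer (H : Set G) := by
    refine ⟨Subgroup.mem_zpowers z, Subgroup.mem_normalizer_iff.2 fun g => ?_⟩
    rw [← Subgroup.mem_center_iff.1 hz g, mul_inv_cancel_right]
  rw [h2] at h3
  exact h3.2

theorem map_inter [Finite G] {p : ℕ} (f : G →* Q) (hk : f.ker ≤ Subgroup.center G)
    (H : Sylow p G) (x : G) :
    inter ((H : Subgroup G).map f) (f x) = (inter (H : Subgroup G) x).map f := by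
  ext g
  constructor
  · rintro ⟨⟨a, ha, rfl⟩, b, hb, hab⟩
    refine ⟨a, ⟨ha, ?_⟩, rfl⟩
    rw [← map_mul, ← map_inv, ← map_mul] at hab
    have hz : b⁻¹ * (x * a * x⁻¹) ∈ f.ker := by
      rw [MonoidHom.mem_ker, map_mul, map_inv, hab, inv_mul_cancel]
    have hc := hk hz
    obtain ⟨m, hm⟩ := H.isPGroup' ⟨a, ha⟩
    obtain ⟨n, hn⟩ := H.isPGroup' ⟨b, hb⟩
    have hm' : a ^ p ^ m = 1 := by simpa [Subtype.ext_iff] using hm
    have hn' : b ^ p ^ n = 1 := by simpa [Subtype.ext_iff] using hn
    have h1 : (x * a * x⁻¹) ^ p ^ (m + n) = 1 := by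
      rw [conj_pow, pow_add, pow_mul, hm', one_pow, mul_one, mul_inv_cancel]
    have h2 : b ^ p ^ (m + n) = 1 := by
      rw [add_comm, pow_add, pow_mul, hn', one_pow]
    have h3 : (b⁻¹ * (x * a * x⁻¹)) ^ p ^ (m + n) = 1 := by
      have h4 : Commute b (b⁻¹ * (x * a * x⁻¹)) := Subgroup.mem_center_iff.1 hc b
      have h5 : x * a * x⁻¹ = b * (b⁻¹ * (x * a * x⁻¹)) := by group
      rw [h5, h4.mul_pow, h2, one_mul] at h1
      exact h1
    have h6 := H.mul_mem hb (central_mem H hc h3)
    have h7 : b * (b⁻¹ * (x * a * x⁻¹)) = x * a * x⁻¹ := by group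
    rwa [h7] at h6
  · rintro ⟨a, ⟨ha, ha'⟩, rfl⟩
    refine ⟨⟨a, ha, rfl⟩, ?_⟩
    rw [← map_mul, ← map_inv, ← map_mul]
    exact ⟨_, ha', rfl⟩

theorem isMin_of_map [Finite G] {p : ℕ} (f : G →* Q)
    (hk : f.ker ≤ Subgroup.center G) (H : Sylow p G) (x : G)
    (h : IsMin ((H : Subgroup G).map f) (f x)) : IsMin (H : Subgroup G) x := by
  intro y hy
  refine le_antisymm hy fun g hg => ?_
  have h1 : inter ((H : Subgroup G).map f) (f y) ≤ inter ((H : Subgroup G).map f) (f x) := by
    rw [map_inter f hk, map_inter f hk]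
    exact Subgroup.map_mono hy
  have h2 := h _ h1
  rw [map_inter f hk, map_inter f hk] at h2
  have h3 : f g ∈ (inter (H : Subgroup G) x).map f := ⟨g, hg, rfl⟩
  rw [← h2] at h3
  obtain ⟨g', hg', he⟩ := h3
  have hz : g'⁻¹ * g ∈ f.ker := by
    rw [MonoidHom.mem_ker, map_mul, map_inv, he, inv_mul_cancel]
  have hc := hk hz
  have hH : g'⁻¹ * g ∈ (H : Subgroup G) := H.mul_mem (H.inv_mem hg'.1) hg.1
  have h4 : g'⁻¹ * g ∈ inter (H : Subgroup G) y := by
    refine ⟨hH, ?_⟩
    rw [Subgroup.mem_center_iff.1 hc y, mul_inv_cancel_right]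
    exact hH
  have h5 := (inter (H : Subgroup G) y).mul_mem hg' h4
  rwa [mul_inv_cancel_left] at h5

theorem simultaneous_central [Finite G] (f : G →* Q) (hf : Function.Surjective f)
    (hk : f.ker ≤ Subgroup.center G) (h : Simultaneous Q) : Simultaneous G := by
  intro H
  obtain ⟨y, hy⟩ := h fun p => by
    have := Fact.mk p.2
    exact (H p).mapSurjective hf
  obtain ⟨x, rfl⟩ := hf y
  refine ⟨x, fun p => isMin_of_map f hk (H p) x ?_⟩
  have := Fact.mk p.2
  have h1 := hy p
  rwa [Sylow.coe_mapSurjective] at h1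

end central

/-- The smallest class of finite groups which contains all groups `G` with `Base G`, all finite
direct products of groups in the class, and all central extensions of groups in the class. -/
inductive Class : (G : Type) → [Group G] → Prop
  | base (G : Type) [Group G] [Finite G] : Base G → Class G
  | prod (ι : Type) [Finite ι] (G : ι → Type) [∀ i, Group (G i)] [∀ i, Finite (G i)] :
      (∀ i, Class (G i)) → Class (∀ i, G i)
  | central (G Q : Type) [Group G] [Finite G] [Group Q] (f : G →* Q) : Function.Surjective f →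
      f.ker ≤ Subgroup.center G → Class Q → Class G

theorem result :
    (∀ (G : Type) [Group G] [Finite G] (p q a b : ℕ), p.Prime → q.Prime → p ≠ q →
      Nat.card G = p ^ a * q ^ b → Class G ∧ ∀ (P : Sylow p G) (Q : Sylow q G),
        {x | IsMin (P : Subgroup G) x ∧ IsMin (Q : Subgroup G) x}.ncard * Nat.card G =
          {x | IsMin (P : Subgroup G) x}.ncard * {x | IsMin (Q : Subgroup G) x}.ncard) ∧
    ∀ (G : Type) [Group G], Class G → Simultaneous G := by
  refine ⟨fun G _ _ _ _ _ _ hp hq hpq hG => ⟨Class.base G (base_of_two hp hq hpq hG),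
    fun P Q => indep (complement hp hq hpq hG P Q)⟩, fun G _ h => ?_⟩
  induction h with
  | base G h => exact simultaneous_of_base h
  | prod ι G _ ih => exact simultaneous_pi ih
  | central G Q f hf hk _ ih => exact simultaneous_central f hf hk ih

end Pool.Agent.Results.MP_e5a1a5_al.TwoPrimeProducts
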